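import Pool.Agent.H92.OD.Targets

/-!
# Board ode_modules: TRF
-/

set_option autoImplicit false

namespace Pool.Agent.H88.OD

open MvPolynomial Filter Pool.Agent.H92.OD

lemma mp_ev {k R S : Type} [Field k] [CommRing R] [CommRing S] [Algebra k R] [Algebra k S]
    [Algebra ℚ R] [Algebra ℚ S] (ψ : R →+* S)
    (hψ : ∀ c : k, ψ (algebraMap k R c) = algebraMap k S c) (Φ : MvPolynomial (Fin 3) k)
    (y : HS R) : mp ψ (ev Φ y) = ev Φ (mp ψ y) := by
  unfold ev
  induction Φ using MvPolynomial.induction_on with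
  | C a => rw [algHom_C, algHom_C, algebraMap_HS, algebraMap_HS, mp_sg, hψ]
  | add p q hp hq => rw [map_add, map_add, map_add, hp, hq]
  | mul_X p i hp =>
    rw [map_mul, map_mul, map_mul, hp, aeval_X, aeval_X]
    congr 1
    fin_cases i
    · change mp ψ (uu R) = uu S
      unfold uu
      rw [mp_sg, map_one]
    · rfl
    · exact mp_DF ψ y

lemma mp_fsm {R S : Type} [CommRing R] [CommRing S] (ψ : R →+* S) (F : Finset ℚ) (c : ℚ → R) :
    mp ψ (fsm F c) = fsm F fun t => ψ (c t) := by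
  unfold fsm
  rw [map_sum]
  exact Finset.sum_congr rfl fun t _ => mp_sg ψ t (c t)

theorem pf_TRF : T_TRF := by
  intro k _ _ 𝒰 F c Φ r
  have h1 : fsm F (fun t => (gm fun j => c j t : Gm 𝒰 k)) =
      mp (gmH : (ℕ → k) →+* Gm 𝒰 k) (fsm F fun t j => c j t) := by
    rw [mp_fsm]
    rfl
  have h0 := mp_ev (k := k) (R := ℕ → k) (S := Gm 𝒰 k) gmH (fun a => rfl) Φ
    (fsm F fun t j => c j t)
  rw [h1, ← h0, cf_mp, gmH_apply]
  congr 1
  funext j
  have h2 : cf (ev Φ (fsm F fun t j => c j t)) r j =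
      Pi.evalRingHom (fun _ : ℕ => k) j (cf (ev Φ (fsm F fun t j => c j t)) r) := rfl
  have h3 := mp_ev (k := k) (R := ℕ → k) (S := k) (Pi.evalRingHom (fun _ : ℕ => k) j)
    (fun a => rfl) Φ (fsm F fun t j => c j t)
  rw [h2, ← cf_mp, h3, mp_fsm]
  rfl

end Pool.Agent.H88.OD
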