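import Pool.Agent.H92.OD.Targets

/-!
# Board ode_modules: BAL
-/

set_option autoImplicit false

namespace Pool.Agent.H88.OD

open MvPolynomial Filter Pool.Agent.H92.OD

lemma pow_low {R : Type} [CommRing R] {x : HS R} {r : ℚ} (hx : geO r x) (n : ℕ) :
    geO (n * r) (x ^ n) ∧ cf (x ^ n) (n * r) = cf x r ^ n := by
  induction n with
  | zero =>
    refine ⟨by simpa using geO_one (R := R), ?_⟩
    rw [pow_zero, pow_zero, Nat.cast_zero, zero_mul, ← sg_zero_one, cf_sg, if_pos rfl]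
  | succ n ih =>
    have h := cf_mul_low ih.1 hx
    have e : ((n + 1 : ℕ) : ℚ) * r = n * r + r := by push_cast; ring
    rw [pow_succ, e]
    refine ⟨h.1, ?_⟩
    rw [h.2, ih.2, pow_succ]

lemma term_low {k : Type} [Field k] [CharZero k] {a t : HS k} {v ρ : ℚ} (ha : geO v a)
    (ht : geO ρ t) (n0 n1 : ℕ) :
    geO (v + ((n0 + n1 : ℕ) : ℚ) * ρ) (a * (t ^ n0 * DF t ^ n1)) ∧
      cf (a * (t ^ n0 * DF t ^ n1)) (v + ((n0 + n1 : ℕ) : ℚ) * ρ) =
        cf a v * (ρ : k) ^ n1 * cf t ρ ^ (n0 + n1) := by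
  have h1 := pow_low ht n0
  have h2 := pow_low (geO_DF ht) n1
  have h3 := cf_mul_low h1.1 h2.1
  have h4 := cf_mul_low ha h3.1
  have e : v + ((n0 + n1 : ℕ) : ℚ) * ρ = v + (n0 * ρ + n1 * ρ) := by push_cast; ring
  rw [e]
  refine ⟨h4.1, ?_⟩
  rw [h4.2, h3.2, h1.2, h2.2, cf_DF, Rat.smul_def, mul_pow, pow_add]
  ring

theorem pf_BAL : T_BAL := by
  intro k _ _ A t ρ w ht hA h0 hev
  classical
  set v : (Fin 2 →₀ ℕ) → ℚ := fun m => w m + d2 m * ρ with hv
  have hne : A.support.Nonempty := by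
    rw [Finset.nonempty_iff_ne_empty]
    intro h
    exact h0 (support_eq_empty.1 h)
  obtain ⟨m0, hm0, hmin⟩ := Finset.exists_min_image A.support v hne
  refine ⟨A.support.filter fun m => v m = v m0, ⟨m0, Finset.mem_filter.2 ⟨hm0, rfl⟩⟩,
    Finset.filter_subset _ _, ⟨v m0, ?_, ?_⟩, ?_⟩
  · intro m hm
    exact (Finset.mem_filter.1 hm).2
  · intro m hm hm'
    refine lt_of_le_of_ne (hmin m hm) fun h => hm' (Finset.mem_filter.2 ⟨hm, h.symm⟩)
  · have h1 : ∀ m ∈ A.support, geO (v m) (coeff m A * (t ^ m 0 * DF t ^ m 1)) ∧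
        cf (coeff m A * (t ^ m 0 * DF t ^ m 1)) (v m) =
          cf (coeff m A) (w m) * (ρ : k) ^ m 1 * cf t ρ ^ d2 m := fun m hm =>
      term_low (hA m hm).2 ht.2 (m 0) (m 1)
    have h2 : eval ![t, DF t] A = ∑ m ∈ A.support, coeff m A * (t ^ m 0 * DF t ^ m 1) := by
      rw [eval_eq']
      refine Finset.sum_congr rfl fun m _ => ?_
      rw [Fin.prod_univ_two]
      rfl
    rw [h2] at hev
    have h3 := congrArg (fun x => cf x (v m0)) hev
    rw [cf_zero, cf_sum, ← Finset.sum_filter_add_sum_filter_not A.support fun m => v m = v m0]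
      at h3
    have h4 : ∑ m ∈ A.support.filter (fun m => ¬v m = v m0),
        cf (coeff m A * (t ^ m 0 * DF t ^ m 1)) (v m0) = 0 := by
      refine Finset.sum_eq_zero fun m hm => ?_
      obtain ⟨h5, h6⟩ := Finset.mem_filter.1 hm
      exact (h1 m h5).1 _ (lt_of_le_of_ne (hmin m h5) fun h => h6 h.symm)
    rw [h4, add_zero] at h3
    rw [← h3]
    refine Finset.sum_congr rfl fun m hm => ?_
    obtain ⟨h5, h6⟩ := Finset.mem_filter.1 hm
    rw [← (h1 m h5).2, h6]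

end Pool.Agent.H88.OD
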